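import Pool.Agent.H82.ZF.Final

/-!
# MP_084d61_lc: the statement (E) holds in every model of ZF

`Pool.Agent.H82.ZF.IsZF M` (file `Base.lean`) says that the structure `(M, ∈)` satisfies the axioms
of Zermelo–Fraenkel set theory without choice: extensionality, foundation, pairing, union, power
set, infinity, and the separation and replacement schemas for all first-order formulas (the type
`Fml`, with Tarski's satisfaction `Fml.Sat`) with parameters.

`Pool.Agent.H82.ZF.HoldsE M` (file `Statement.lean`) is the statement (E) of the problem, with every
quantifier ranging over `M` and the membership relation of `M` as only primitive: the natural
numbers, addition, filters, ultrafilters, the pseudo-sum and additive filters are all the ones of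
the structure `(M, ∈)`.

By Gödel's completeness theorem, a statement that holds in all models of ZF is a theorem of ZF.
-/

set_option autoImplicit false

universe u

/-- (E) holds in every model `(M, ∈)` of ZF: for every additive filter `F` on the positive integers
and every set `B` of positive integers there is an additive filter `G ⊇ F` deciding `B`. -/
theorem Pool.Agent.Results.MP_084d61_lc.TheoremOfZF.result (M : Type u) [Membership M M]
    (hM : Pool.Agent.H82.ZF.IsZF M) : Pool.Agent.H82.ZF.HoldsE M :=
  Pool.Agent.H82.ZF.holdsE M hM
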